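import Pool.Agent.TH54.BU.Iter
import Pool.Agent.TH54.BU.Inf
import Pool.Agent.TH54.BU.TorsGrp
import Pool.Agent.TH54.BU.LawWr

/-!
# A finitely generated group without free subsemigroups whose variety is proper and contains
the variety `A_p A` (helper54)
-/

set_option autoImplicit false

namespace Pool.Agent.Results.MP_67fb03_al.TorsionAboveApA

universe u

/-- For every prime `p` there is a finitely generated group `G` (even a torsion group) in which any
two elements satisfy a relation between two distinct positive words, which satisfies a nontrivial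
law, and all of whose laws hold in every extension of an abelian group of exponent dividing `p` by
an abelian group. -/
theorem result (p : ℕ) (hp : p.Prime) :
    ∃ (G : Type) (_ : Group G), Group.FG G ∧ (∀ g : G, IsOfFinOrder g) ∧
      (∀ a b : G, ∃ s t : FreeMonoid (Fin 2), s ≠ 1 ∧ t ≠ 1 ∧ s ≠ t ∧
        FreeMonoid.lift ![a, b] s = FreeMonoid.lift ![a, b] t) ∧
      (∃ w : FreeGroup ℕ, w ≠ 1 ∧ ∀ f : FreeGroup ℕ →* G, f w = 1) ∧
      ∀ (H : Type u) [Group H] (N : Subgroup H) [N.Normal],
        (∀ x ∈ N, x ^ p = 1) → (∀ x ∈ N, ∀ y ∈ N, x * y = y * x) →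
        (∀ x y : H ⧸ N, x * y = y * x) →
        ∀ w : FreeGroup ℕ, (∀ f : FreeGroup ℕ →* G, f w = 1) →
          ∀ f : FreeGroup ℕ →* H, f w = 1 := by
  classical
  obtain ⟨p0, hb⟩ := Pool.Agent.TH54.BU.burnside
  obtain ⟨q, hle, hq⟩ := Nat.exists_infinite_primes (max p0 3)
  have hB := hb q hq (le_trans (le_max_left _ _) hle)
  have hq3 : 3 ≤ q := le_trans (le_max_right _ _) hle
  have hinf := Pool.Agent.TH54.BU.Burn.infinite hq hB
  have hodd : Odd q := hq.odd_of_ne_two (by omega)
  have hexp : ∀ b : FreeGroup (Fin 2) ⧸ Pool.Agent.TH54.BU.powSub (FreeGroup (Fin 2)) q,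
      b ^ q = 1 := by
    intro b
    obtain ⟨g, rfl⟩ := QuotientGroup.mk_surjective b
    rw [← QuotientGroup.mk_pow, QuotientGroup.eq_one_iff]
    exact Subgroup.subset_normalClosure ⟨g, rfl⟩
  have hfg : Group.FG (FreeGroup (Fin 2) ⧸ Pool.Agent.TH54.BU.powSub (FreeGroup (Fin 2)) q) :=
    inferInstance
  obtain ⟨G, _, h1, h2, h3, h4⟩ :=
    Pool.Agent.TH54.BU.exists_torsion_group hinf hfg hodd hexp hp
  refine ⟨G, inferInstance, h1, h2, ?_, h3, ?_⟩
  · intro a b
    obtain ⟨n, hn, han⟩ := (isOfFinOrder_iff_pow_eq_one).1 (h2 a)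
    have hlen : ∀ k : ℕ, (FreeMonoid.of (0 : Fin 2) ^ k).length = k := by
      intro k
      induction k with
      | zero => rfl
      | succ k ih => rw [pow_succ, FreeMonoid.length_mul, ih, FreeMonoid.length_of]
    refine ⟨FreeMonoid.of 0 ^ n, FreeMonoid.of 0 ^ (2 * n), ?_, ?_, ?_, ?_⟩
    · intro h
      have := congrArg FreeMonoid.length h
      rw [hlen, FreeMonoid.length_one] at this
      omega
    · intro h
      have := congrArg FreeMonoid.length h
      rw [hlen, FreeMonoid.length_one] at this
      omega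
    · intro h
      have := congrArg FreeMonoid.length h
      rw [hlen, hlen] at this
      omega
    · simp [pow_mul, mul_comm 2 n, han]
  · intro H _ N _ e1 e2 e3 w hw f
    -- pass to the image of `f`
    set g : FreeGroup ℕ ⧸ f.ker →* H := QuotientGroup.kerLift f with hg
    have hginj : Function.Injective g := QuotientGroup.kerLift_injective f
    have hgm : ∀ x : FreeGroup ℕ, g (QuotientGroup.mk' f.ker x) = f x := fun x => rfl
    have key := Pool.Agent.TH54.BU.law_wreath hp w (fun n hn hno => h4 w hw n hn hno)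
      (N.comap g) (fun x hx => hginj (by rw [map_pow, map_one]; exact e1 _ hx))
      (fun x hx y hy => hginj (by rw [map_mul, map_mul]; exact e2 _ hx _ hy))
      (fun x y => by
        rw [Subgroup.mem_comap, map_mul, map_mul, map_mul, map_inv, map_inv,
          ← QuotientGroup.eq_one_iff, QuotientGroup.mk_mul, QuotientGroup.mk_mul,
          QuotientGroup.mk_mul, QuotientGroup.mk_inv, QuotientGroup.mk_inv,
          e3 (g x : H ⧸ N) (g y : H ⧸ N)]
        group)
      (QuotientGroup.mk' f.ker)
    rw [← hgm w, key, map_one]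

end Pool.Agent.Results.MP_67fb03_al.TorsionAboveApA
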